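import Pool.Agent.Q223.HF.Main
import Pool.Agent.Q223.HF.Params
import Pool.Agent.Q223.HF.Graph

/-!
# Distribution-free sample complexity of testing H-freeness

For every connected finite simple graph `H` with at least two edges and every `c < 1 / e(H)`, the
sample complexity of testing `H`-freeness of edge sets on `n` vertices is
`O_ε(ex(n, H) ^ (1 - c))`.

The proof: draw `m` samples and accept if the sampled positive pairs do not contain a copy of `H`.
For the analysis think of `N ≈ ex(n, H) ^ (1 + δ)` samples. By a union bound over the few `H`-free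
edge sets, with high probability no `H`-free graph explains all but a few of the samples, hence the
samples contain many disjoint copies of `H`. Colour the `N` samples with `b` colours uniformly at
random; as the copies have at most `e(H)` edges, a colour class contains one of them with high
probability if `b ^ e(H)` is smaller than the number of copies, and a class has about `N / b` samples.
-/

set_option autoImplicit false

namespace Pool.Agent.Results.MP_c13ef9_lc.AllConnected

/-- A randomised algorithm that receives `m` labelled samples and decides to accept or to reject. It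
is given by its probability of acceptance on every sequence of labelled samples. -/
structure Algorithm (Λ : Type) (m : ℕ) where
  /-- the probability that the algorithm accepts the given labelled samples -/
  accept : (Fin m → Λ × Bool) → ℝ
  nonneg : ∀ s, 0 ≤ accept s
  le_one : ∀ s, accept s ≤ 1

/-- The probability that the algorithm accepts if it receives `m` samples drawn independently from
the distribution `μ`, and labelled by `f`. -/
noncomputable def Algorithm.acceptProb {Λ : Type} [Fintype Λ] {m : ℕ} (A : Algorithm Λ m)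
    (μ : Λ → ℝ) (f : Λ → Bool) : ℝ :=
  ∑ x : Fin m → Λ, (∏ i, μ (x i)) * A.accept (fun i => (x i, f (x i)))

/-- The algorithm is a distribution-free tester for the family `𝓗` with proximity parameter `ε`: for
every distribution `μ` and every `f`, it accepts with probability at least `2/3` if `f ∈ 𝓗`, and
rejects with probability at least `2/3` if `Pr_{x ∼ μ}[f x ≠ g x] ≥ ε` for every `g ∈ 𝓗`. -/
def IsTester {Λ : Type} [Fintype Λ] (𝓗 : Set (Λ → Bool)) (ε : ℝ) {m : ℕ}
    (A : Algorithm Λ m) : Prop :=
  ∀ μ ∈ stdSimplex ℝ Λ, ∀ f : Λ → Bool,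
    (f ∈ 𝓗 → 2 / 3 ≤ A.acceptProb μ f) ∧
    ((∀ g ∈ 𝓗, ε ≤ ∑ x with f x ≠ g x, μ x) → 2 / 3 ≤ 1 - A.acceptProb μ f)

/-- The positive numbers `m` of samples with which `𝓗` can be tested; the least of them is
`sam(𝓗, ε)`. -/
def sampleSizes {Λ : Type} [Fintype Λ] (𝓗 : Set (Λ → Bool)) (ε : ℝ) : Set ℕ :=
  {m | 0 < m ∧ ∃ A : Algorithm Λ m, IsTester 𝓗 ε A}

/-- The unordered pairs of distinct elements of an `n`-element set. -/
abbrev Pair (n : ℕ) : Type := {e : Sym2 (Fin n) // ¬ e.IsDiag}

/-- The graph on `n` vertices whose edges are the pairs `e` with `f e = true`. -/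
def graph {n : ℕ} (f : Pair n → Bool) : SimpleGraph (Fin n) :=
  SimpleGraph.fromEdgeSet {e | ∃ h : ¬ e.IsDiag, f ⟨e, h⟩ = true}

/-- The family of (indicator functions of) edge sets of graphs on `n` vertices without a subgraph
isomorphic to `H`. -/
def freeFamily {W : Type*} (H : SimpleGraph W) (n : ℕ) : Set (Pair n → Bool) :=
  {f | H.Free (graph f)}

theorem graph_eq {n : ℕ} (f : Pair n → Bool) :
    graph f = Q223.HF.gr (Finset.univ.filter fun x => f x = true) := by
  unfold graph Q223.HF.gr
  congr 1
  ext e
  simp

open Classical in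
/-- The canonical tester. -/
noncomputable def canonical {W : Type*} (H : SimpleGraph W) (n m : ℕ) : Algorithm (Pair n) m where
  accept s := if H.Free (Q223.HF.gr (Finset.univ.filter fun v => ∃ i, (s i).1 = v ∧ (s i).2 = true))
    then 1 else 0
  nonneg s := by split_ifs <;> norm_num
  le_one s := by split_ifs <;> norm_num

theorem canonical_prob {W : Type*} (H : SimpleGraph W) (n m : ℕ) (μ : Pair n → ℝ)
    (f : Pair n → Bool) : (canonical H n m).acceptProb μ f =
    ∑ x : Fin m → Pair n, Q223.HF.wt μ x * (open Classical in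
      if H.Free (Q223.HF.gr ((Finset.univ.filter fun v => f v = true).filter
        fun v => ∃ i, x i = v)) then 1 else 0) := by
  unfold Algorithm.acceptProb
  refine Finset.sum_congr rfl fun x _ => ?_
  unfold Q223.HF.wt canonical
  have h : (Finset.univ.filter fun v => ∃ i, x i = v ∧ f (x i) = true) =
      ((Finset.univ.filter fun v => f v = true).filter fun v => ∃ i, x i = v) := by
    ext v
    simp only [Finset.mem_filter, Finset.mem_univ, true_and]
    constructor
    · rintro ⟨i, rfl, h⟩
      exact ⟨h, i, rfl⟩
    · rintro ⟨h, i, rfl⟩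
      exact ⟨i, rfl, h⟩
  simp only
  congr 3
  simp only [h]

theorem canonical_isTester {W : Type*} [Finite W] (H : SimpleGraph W) (n : ℕ) (hn : 2 ≤ n)
    (ε : ℝ) (hε1 : ε ≤ 1) (N a k b m : ℕ) (hb : 1 ≤ b)
    (c1 : ((n : ℝ) ^ 2) ^ (SimpleGraph.extremalNumber n H) * (2 ^ a * (1 - ε / 2) ^ N) ≤ 1 / 12)
    (c2 : (k - 1) * H.edgeSet.ncard ≤ a)
    (c3 : (1 - 1 / (b : ℝ) ^ H.edgeSet.ncard) ^ k ≤ 1 / 12)
    (c4 : m ≤ N) (c5 : 2 * N ≤ b * (m + 1)) : IsTester (freeFamily H n) ε (canonical H n m) := by
  classical
  rintro μ ⟨hμ, h1⟩ f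
  constructor
  · intro hf
    rw [canonical_prob]
    have h2 : ∀ x : Fin m → Pair n, H.Free (Q223.HF.gr ((Finset.univ.filter fun v =>
        f v = true).filter fun v => ∃ i, x i = v)) := by
      intro x hx
      have h3 : H.Free (graph f) := hf
      rw [graph_eq] at h3
      exact h3 (hx.mono_right (Q223.HF.gr_mono (Finset.filter_subset _ _)))
    have h4 : ∀ x ∈ (Finset.univ : Finset (Fin m → Pair n)), Q223.HF.wt μ x * (open Classical in
        if H.Free (Q223.HF.gr ((Finset.univ.filter fun v => f v = true).filter
          fun v => ∃ i, x i = v)) then (1 : ℝ) else 0) = Q223.HF.wt μ x := by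
      intro x _
      rw [if_pos (h2 x), mul_one]
    have h5 := Finset.sum_congr rfl h4
    rw [h5, Q223.HF.wt_sum h1]
    norm_num
  · intro hfar
    rw [canonical_prob]
    have h2 := Q223.HF.reject (fun S : Finset (Pair n) => H.Free (Q223.HF.gr S))
      (fun S T hST hT hS => hT (hS.mono_right (Q223.HF.gr_mono hST))) H.edgeSet.ncard
      (fun S hS => Q223.HF.certificate H S hS) (Finset.univ.filter fun v => f v = true) μ hμ h1 ε
      hε1 ?_ N a k b m hb ?_ c2 c3 c4 c5
    · have h3 : ∀ x y : ℝ, x = y → y ≤ 1 / 3 → 2 / 3 ≤ 1 - x := fun x y hxy hy => by linarith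
      refine h3 _ _ ?_ h2
      refine Finset.sum_congr rfl fun x _ => ?_
      by_cases hx : H.Free (Q223.HF.gr ((Finset.univ.filter fun v => f v = true).filter
          fun v => ∃ i, x i = v))
      · rw [if_pos hx, if_pos hx]
      · rw [if_neg hx, if_neg hx]
    · intro g hg hgf
      let g' : Pair n → Bool := fun x => decide (x ∈ g)
      have hg' : g' ∈ freeFamily H n := by
        show H.Free (graph g')
        rw [graph_eq]
        have : (Finset.univ.filter fun x => g' x = true) = g := by
          ext x; simp [g']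
        rw [this]
        exact hg
      refine (hfar g' hg').trans (le_of_eq ?_)
      refine Finset.sum_congr ?_ fun _ _ => rfl
      ext x
      simp only [Finset.mem_filter, Finset.mem_univ, true_and, Finset.mem_sdiff, g']
      by_cases hx : x ∈ g
      · have hfx : f x = true := (Finset.mem_filter.mp (hgf hx)).2
        simp [hx, hfx]
      · simp [hx]
    · refine le_trans ?_ c1
      have hpos : 0 ≤ 2 ^ a * (1 - ε / 2) ^ N := by
        have : 0 ≤ 1 - ε / 2 := by linarith
        positivity
      refine mul_le_mul_of_nonneg_right ?_ hpos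
      have h3 : (Finset.univ.filter fun g : Finset (Pair n) => H.Free (Q223.HF.gr g)) ⊆
          (Finset.univ.filter fun g : Finset (Pair n) =>
            g.card ≤ SimpleGraph.extremalNumber n H) := by
        intro g hg
        rw [Finset.mem_filter] at hg ⊢
        exact ⟨Finset.mem_univ _, Q223.HF.card_le_extremal H g hg.2⟩
      have h4 := (Finset.card_le_card h3).trans
        (Q223.HF.card_bounded (SimpleGraph.extremalNumber n H))
      have h5 := h4.trans (Nat.pow_le_pow_left (Q223.HF.card_pairs n hn) _)
      have h6 : (((Finset.univ.filter fun g : Finset (Pair n) =>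
          H.Free (Q223.HF.gr g)).card : ℕ) : ℝ) ≤
          ((n : ℝ) ^ 2) ^ SimpleGraph.extremalNumber n H := by exact_mod_cast h5
      refine le_trans (le_of_eq ?_) h6
      congr 2
      ext g
      simp

/-- For every connected finite simple graph `H` with at least two edges, every `c < 1 / e(H)` and
every `ε ∈ (0, 1)` there is a constant `C` such that for all `n ≥ 2` the sample complexity of testing
`H`-freeness on `n` vertices exists and is at most `C * ex(n, H) ^ (1 - c)`. -/
theorem result {W : Type*} [Finite W] (H : SimpleGraph W) (hconn : H.Connected)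
    (hedges : 2 ≤ H.edgeSet.ncard) (c : ℝ) (hc : c < 1 / H.edgeSet.ncard) (ε : ℝ)
    (hε0 : 0 < ε) (hε1 : ε < 1) :
    ∃ C : ℝ, ∀ n : ℕ, 2 ≤ n → ∃ sam : ℕ, IsLeast (sampleSizes (freeFamily H n) ε) sam ∧
      (sam : ℝ) ≤ C * (SimpleGraph.extremalNumber n H : ℝ) ^ (1 - c) := by
  obtain ⟨C, hC, hpar⟩ := Q223.HF.params H.edgeSet.ncard hedges c hc ε hε0 hε1.le
  refine ⟨C, fun n hn => ?_⟩
  obtain ⟨N, a, k, b, m, hb, c1, c2, c3, c4, c5, hm0, hm⟩ := hpar n _ hn
    (Q223.HF.le_extremal H hconn hedges n hn)
  have htest := canonical_isTester H n hn ε hε1.le N a k b m hb c1 c2 c3 c4 c5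
  have hmem : m ∈ sampleSizes (freeFamily H n) ε := ⟨hm0, _, htest⟩
  obtain ⟨s, hs1, hs2⟩ : ∃ s, IsLeast (sampleSizes (freeFamily H n) ε) s ∧ s ≤ m :=
    ⟨sInf (sampleSizes (freeFamily H n) ε), ⟨Nat.sInf_mem ⟨m, hmem⟩, fun t ht => Nat.sInf_le ht⟩,
      Nat.sInf_le hmem⟩
  refine ⟨s, hs1, le_trans ?_ hm⟩
  exact_mod_cast hs2

end Pool.Agent.Results.MP_c13ef9_lc.AllConnected
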